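import Mathlib
import Pool.Agent.Y700.Defs
import Pool.Agent.Helper620.Wg.KI
import Pool.Agent.H285R3.Str.PerCx

/-!
# The real period of the twists of `X_0(14)` from the period lattice (helper700's part OMEGA)
-/

set_option autoImplicit false

namespace Pool.Agent.Y248.BSD14

open Set Filter Topology PeriodPair MeasureTheory
open Pool.Agent.H285R3.Str (P_conj P'_conj)

/-- The Weierstrass function of a lattice stable under conjugation on the real axis, when the cubic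
has one real root only. -/
theorem per (L : PeriodPair) (T : ℝ) (hT : 0 < T) (h2T : ((2 * T : ℝ) : ℂ) ∈ L.lattice)
    (hnm : ∀ x : ℝ, 0 < x → x < 2 * T → (x : ℂ) ∉ L.lattice)
    (hc : ∀ l ∈ L.lattice, (starRingEnd ℂ) l ∈ L.lattice) (a b e : ℝ)
    (ha : L.g₂ = a) (hb : L.g₃ = b) (huniq : ∀ x : ℝ, 4 * x ^ 3 - a * x - b = 0 → x = e) :
    ∃ p q : ℝ → ℝ, (∀ x ∈ Ioo (0 : ℝ) T, HasDerivAt p (q x) x) ∧
      (∀ x ∈ Ioo (0 : ℝ) T, q x < 0) ∧
      (∀ x ∈ Ioo (0 : ℝ) T, q x ^ 2 = 4 * p x ^ 3 - a * p x - b) ∧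
      Tendsto p (𝓝[>] 0) atTop ∧ Tendsto p (𝓝[<] T) (𝓝 e) := by
  set p : ℝ → ℝ := fun x => (L.weierstrassP x).re with hp
  set q : ℝ → ℝ := fun x => (L.derivWeierstrassP x).re with hq
  have hpx : ∀ x : ℝ, L.weierstrassP x = (p x : ℂ) := by
    intro x
    have := P_conj L hc x
    rw [Complex.conj_ofReal] at this
    exact (Complex.conj_eq_iff_re.1 this.symm).symm
  have hqx : ∀ x : ℝ, L.derivWeierstrassP x = (q x : ℂ) := by
    intro x
    have := P'_conj L hc x
    rw [Complex.conj_ofReal] at this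
    exact (Complex.conj_eq_iff_re.1 this.symm).symm
  have hopen : IsOpen (L.lattice : Set ℂ)ᶜ := L.isClosed_lattice.isOpen_compl
  have hd : ∀ x ∈ Ioo (0 : ℝ) (2 * T), HasDerivAt p (q x) x := by
    intro x hx
    have hx' : (x : ℂ) ∈ (L.lattice : Set ℂ)ᶜ := hnm x hx.1 hx.2
    have h2 : DifferentiableAt ℂ L.weierstrassP x :=
      (L.differentiableOn_weierstrassP x hx').differentiableAt (hopen.mem_nhds hx')
    have h3 := h2.hasDerivAt
    rw [L.deriv_weierstrassP] at h3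
    exact h3.real_of_complex
  have hcq : ContinuousOn q (Ioo (0 : ℝ) (2 * T)) := by
    have h2 : ContinuousOn L.derivWeierstrassP (L.lattice : Set ℂ)ᶜ :=
      L.differentiableOn_derivWeierstrassP.continuousOn
    have h3 : ContinuousOn (fun x : ℝ => L.derivWeierstrassP x) (Ioo (0 : ℝ) (2 * T)) :=
      h2.comp Complex.continuous_ofReal.continuousOn
        (fun x hx => hnm x hx.1 hx.2)
    exact Complex.continuous_re.comp_continuousOn h3
  have hode : ∀ x ∈ Ioo (0 : ℝ) (2 * T), q x ^ 2 = 4 * p x ^ 3 - a * p x - b := by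
    intro x hx
    have h2 := L.derivWeierstrassP_sq x (hnm x hx.1 hx.2)
    rw [hpx, hqx, ha, hb] at h2
    exact_mod_cast h2
  have htop : Tendsto p (𝓝[>] 0) atTop := by
    have h2 : ∀ x : ℝ, p x = (L.weierstrassPExcept 0 x).re + 1 / x ^ 2 := by
      intro x
      have h3 := L.weierstrassPExcept_add 0 x
      simp only [Submodule.coe_zero, sub_zero] at h3
      simp only [hp]
      rw [← h3]
      rw [Complex.add_re]
      congr 1
      have : (1 / (x : ℂ) ^ 2 - 1 / (0 : ℂ) ^ 2) = ((1 / x ^ 2 : ℝ) : ℂ) := by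
        push_cast; simp
      rw [this, Complex.ofReal_re]
    have h3 : ContinuousAt (fun x : ℝ => (L.weierstrassPExcept 0 x).re) 0 := by
      have h4 : ContinuousAt (L.weierstrassPExcept 0) ((0 : ℝ) : ℂ) := by
        refine ((L.differentiableOn_weierstrassPExcept 0).differentiableAt ?_).continuousAt
        exact_mod_cast L.compl_lattice_sdiff_singleton_mem_nhds 0
      exact Complex.continuous_re.continuousAt.comp
        (ContinuousAt.comp (f := fun x : ℝ => (x : ℂ)) h4 Complex.continuous_ofReal.continuousAt)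
    have h4 : Tendsto (fun x : ℝ => (L.weierstrassPExcept 0 x).re) (𝓝[>] 0)
        (𝓝 (L.weierstrassPExcept 0 ((0 : ℝ) : ℂ)).re) := h3.tendsto.mono_left nhdsWithin_le_nhds
    have h5 : Tendsto (fun x : ℝ => 1 / x ^ 2) (𝓝[>] 0) atTop := by
      have h6 : Tendsto (fun x : ℝ => (x⁻¹) ^ 2) (𝓝[>] 0) atTop :=
        (tendsto_pow_atTop two_ne_zero).comp tendsto_inv_nhdsGT_zero
      refine h6.congr fun x => ?_
      rw [one_div, inv_pow]
    have h7 := h4.add_atTop h5
    exact h7.congr fun x => (h2 x).symm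
  have hhalf : T ∈ Ioo (0 : ℝ) (2 * T) := by constructor <;> linarith
  have hq0 : q T = 0 := by
    have h2 : L.derivWeierstrassP (-((T : ℝ) : ℂ)) = - L.derivWeierstrassP ((T : ℝ) : ℂ) :=
      L.derivWeierstrassP_neg _
    have h3 : L.derivWeierstrassP (-((T : ℝ) : ℂ) + (⟨_, h2T⟩ : L.lattice)) =
        L.derivWeierstrassP (-((T : ℝ) : ℂ)) := L.derivWeierstrassP_add_coe _ _
    have h4 : -((T : ℝ) : ℂ) + ((⟨_, h2T⟩ : L.lattice) : ℂ) = ((T : ℝ) : ℂ) := by
      push_cast; ring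
    rw [h4, h2, hqx] at h3
    have h5 : q T = - q T := by exact_mod_cast h3
    linarith
  have hpT : p T = e := by
    apply huniq
    have := hode T hhalf
    rw [hq0] at this
    linarith
  have he : Tendsto p (𝓝[<] T) (𝓝 e) := by
    rw [← hpT]
    exact (hd _ hhalf).continuousAt.tendsto.mono_left nhdsWithin_le_nhds
  have hsub : Ioo (0 : ℝ) T ⊆ Ioo (0 : ℝ) (2 * T) := Ioo_subset_Ioo_right (by linarith)
  refine ⟨p, q, fun x hx => hd x (hsub hx), ?_, fun x hx => hode x (hsub hx), htop, he⟩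
  have hqne : ∀ x ∈ Ioo (0 : ℝ) T, q x ≠ 0 := by
    intro x hx h0
    have h1 : p x = e := by
      apply huniq
      have := hode x (hsub hx)
      rw [h0] at this
      linarith
    have h2 : L.weierstrassP x = L.weierstrassP T := by rw [hpx, hpx, h1, hpT]
    rcases Wg.wp_inj L x T (hnm x hx.1 (hsub hx).2) (hnm T hhalf.1 hhalf.2) h2 with h3 | h3
    · have h4 : ((T - x : ℝ) : ℂ) ∈ L.lattice := by
        have := neg_mem h3
        push_cast
        rwa [neg_sub] at this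
      exact hnm _ (by linarith [hx.2]) (by linarith [hx.1]) h4
    · have h4 : ((x + T : ℝ) : ℂ) ∈ L.lattice := by
        push_cast
        exact h3
      exact hnm _ (by linarith [hx.1]) (by linarith [hx.2]) h4
  by_contra hcon
  push Not at hcon
  obtain ⟨x0, hx0, hx0'⟩ := hcon
  have hx0pos : 0 < q x0 := lt_of_le_of_ne hx0' (hqne x0 hx0).symm
  have hall : ∀ x ∈ Ioo (0 : ℝ) T, 0 < q x := by
    intro x hx
    by_contra hn
    have hn' : q x ≤ 0 := not_lt.1 hn
    obtain ⟨y, hy, hy'⟩ := isPreconnected_Ioo.intermediate_value hx hx0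
      (hcq.mono hsub) (show (0 : ℝ) ∈ Icc (q x) (q x0) from ⟨hn', hx0pos.le⟩)
    exact hqne y hy hy'
  have hmono : StrictMonoOn p (Ioo (0 : ℝ) T) := by
    refine strictMonoOn_of_deriv_pos (convex_Ioo _ _) ?_ ?_
    · intro x hx
      exact (hd x (hsub hx)).continuousAt.continuousWithinAt
    · intro x hx
      rw [interior_Ioo] at hx
      rw [(hd x (hsub hx)).deriv]
      exact hall x hx
  have h3 : ∀ᶠ x in 𝓝[>] (0 : ℝ), p x0 < p x := htop.eventually_gt_atTop (p x0)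
  have h4 : ∀ᶠ x in 𝓝[>] (0 : ℝ), x ∈ Ioo (0 : ℝ) x0 := Ioo_mem_nhdsGT hx0.1
  obtain ⟨x, hx, hx'⟩ := (h3.and h4).exists
  have := hmono ⟨hx'.1, hx'.2.trans hx0.2⟩ hx0 hx'.2
  linarith

/-- a decreasing function with the limits `∞` at `0` and `e` at `T` -/
theorem image_eq (T : ℝ) (hT : 0 < T) (p q : ℝ → ℝ) (e : ℝ)
    (hd : ∀ x ∈ Ioo (0 : ℝ) T, HasDerivAt p (q x) x)
    (hq : ∀ x ∈ Ioo (0 : ℝ) T, q x < 0)
    (h0 : Tendsto p (𝓝[>] 0) atTop) (h1 : Tendsto p (𝓝[<] T) (𝓝 e)) :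
    InjOn p (Ioo 0 T) ∧ p '' Ioo (0 : ℝ) T = Ioi e := by
  have hanti : StrictAntiOn p (Ioo (0 : ℝ) T) := by
    refine strictAntiOn_of_deriv_neg (convex_Ioo _ _) ?_ ?_
    · intro x hx
      exact (hd x hx).continuousAt.continuousWithinAt
    · intro x hx
      rw [interior_Ioo] at hx
      rw [(hd x hx).deriv]
      exact hq x hx
  refine ⟨hanti.injOn, ?_⟩
  have hgt : ∀ x ∈ Ioo (0 : ℝ) T, e < p x := by
    intro x hx
    have hy' : (x + T) / 2 ∈ Ioo (0 : ℝ) T :=
      ⟨by have := hx.1; linarith, by have := hx.2; linarith⟩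
    have hxy : x < (x + T) / 2 := by have := hx.2; linarith
    have h2 : p ((x + T) / 2) < p x := hanti hx hy' hxy
    have h3 : e ≤ p ((x + T) / 2) := by
      refine le_of_tendsto h1 ?_
      have : Ioo ((x + T) / 2) T ∈ 𝓝[<] T := Ioo_mem_nhdsLT hy'.2
      filter_upwards [this] with z hz
      exact (hanti hy' ⟨hy'.1.trans hz.1, hz.2⟩ hz.1).le
    linarith
  apply Subset.antisymm
  · rintro _ ⟨x, hx, rfl⟩
    exact hgt x hx
  · intro v hv
    have hv : e < v := hv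
    have h2 : ∃ a ∈ Ioo (0 : ℝ) T, v ≤ p a := by
      have h3 : ∀ᶠ x in 𝓝[>] (0 : ℝ), v ≤ p x := h0.eventually_ge_atTop v
      have h4 : ∀ᶠ x in 𝓝[>] (0 : ℝ), x ∈ Ioo (0 : ℝ) T := Ioo_mem_nhdsGT hT
      obtain ⟨a, ha⟩ := (h3.and h4).exists
      exact ⟨a, ha.2, ha.1⟩
    have h3 : ∃ b ∈ Ioo (0 : ℝ) T, p b ≤ v := by
      have h3 : ∀ᶠ x in 𝓝[<] T, p x < v := h1.eventually (gt_mem_nhds hv)
      have h4 : ∀ᶠ x in 𝓝[<] T, x ∈ Ioo (0 : ℝ) T := Ioo_mem_nhdsLT hT
      obtain ⟨a, ha⟩ := (h3.and h4).exists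
      exact ⟨a, ha.2, ha.1.le⟩
    obtain ⟨a, ha, ha'⟩ := h2
    obtain ⟨b, hb, hb'⟩ := h3
    have hc : ContinuousOn p (Ioo (0 : ℝ) T) :=
      fun x hx => (hd x hx).continuousAt.continuousWithinAt
    obtain ⟨x, hx, hx'⟩ := isPreconnected_Ioo.intermediate_value hb ha hc ⟨hb', ha'⟩
    exact ⟨x, hx, hx'⟩

/-- `(2 y + a₁ x + a₃)²` of the equation of the twist -/
theorem psi_WM (M : ℤ) (hM : M % 4 = 1) (x : ℝ) :
    Y700.psi (Y700.WM M) x = 4 * x ^ 3 + M * x ^ 2 + 18 * M ^ 2 * x - 23 * M ^ 3 := by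
  obtain ⟨k, hk⟩ : ∃ k : ℤ, M = 4 * k + 1 := ⟨M / 4, by omega⟩
  have h1 : (M - 1) / 4 = k := by omega
  have h2 : (9 * M ^ 2 - 1) / 2 = 72 * k ^ 2 + 36 * k + 4 := by
    have : 9 * M ^ 2 - 1 = (72 * k ^ 2 + 36 * k + 4) * 2 := by rw [hk]; ring
    rw [this, Int.mul_ediv_cancel _ (by norm_num)]
  have h3 : (23 * M ^ 3 + 1) / 4 = 368 * k ^ 3 + 276 * k ^ 2 + 69 * k + 6 := by
    have : 23 * M ^ 3 + 1 = (368 * k ^ 3 + 276 * k ^ 2 + 69 * k + 6) * 4 := by rw [hk]; ring
    rw [this, Int.mul_ediv_cancel _ (by norm_num)]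
  simp only [Y700.psi, Y700.WM, WeierstrassCurve.b₂, WeierstrassCurve.b₄, WeierstrassCurve.b₆, h1,
    h2, h3]
  rw [hk]
  push_cast
  ring

theorem t : Pool.Agent.Y700.S_OMEGA := by
  intro L Op Om hOp hOm hg2 hg3 hL M hM hM0
  have hM0' : (0 : ℝ) < M := by exact_mod_cast hM0
  -- the lattice
  have h2T : ((2 * Op : ℝ) : ℂ) ∈ L.lattice := by
    rw [hL]
    exact ⟨2, 0, ⟨1, by norm_num⟩, by push_cast; ring⟩
  have hnm : ∀ x : ℝ, 0 < x → x < 2 * Op → (x : ℂ) ∉ L.lattice := by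
    intro x hx0 hx1 hx
    obtain ⟨a, b, ⟨c, hab⟩, h⟩ := (hL _).1 hx
    have hi := congrArg Complex.im h
    have hr := congrArg Complex.re h
    simp at hi hr
    rcases hi with hi | hi
    · subst hi
      rw [hr] at hx0 hx1
      have h2 : (0 : ℝ) < a := by
        by_contra hn
        push Not at hn
        have := mul_nonpos_of_nonpos_of_nonneg hn hOp.le
        linarith
      have h3 : (a : ℝ) < 2 := by
        by_contra hn
        push Not at hn
        nlinarith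
      have h4 : (0 : ℤ) < a := by exact_mod_cast h2
      have h5 : a < (2 : ℤ) := by exact_mod_cast h3
      omega
    · exact absurd hi hOm.ne'
  have hc : ∀ l ∈ L.lattice, (starRingEnd ℂ) l ∈ L.lattice := by
    intro l hl
    obtain ⟨a, b, ⟨c, hab⟩, rfl⟩ := (hL _).1 hl
    rw [hL]
    refine ⟨a, -b, ⟨c + b, by omega⟩, ?_⟩
    simp
  have huniq : ∀ x : ℝ, 4 * x ^ 3 - (-215 / 12) * x - 5291 / 216 = 0 → x = 13 / 12 := by
    intro x hx
    have h1 : (x - 13 / 12) * (4 * x ^ 2 + 13 / 3 * x + 407 / 18) = 0 := by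
      linear_combination hx
    rcases mul_eq_zero.1 h1 with h | h
    · linarith
    · exfalso
      nlinarith [sq_nonneg (x + 13 / 24)]
  obtain ⟨p, q, hd, hq, hode, h0, h1⟩ := per L Op hOp h2T hnm hc (-215 / 12) (5291 / 216) (13 / 12)
    (by rw [hg2]; push_cast; ring) (by rw [hg3]; push_cast; ring) huniq
  obtain ⟨hinj, himg⟩ := image_eq Op hOp p q _ hd hq h0 h1
  have hpsi : ∀ v : ℝ, Y700.psi (Y700.WM M) (M * (v - 1 / 12)) =
      M ^ 3 * (4 * v ^ 3 - (-215 / 12) * v - 5291 / 216) := by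
    intro v
    rw [psi_WM M hM]
    ring
  have hset : {x : ℝ | 0 < Y700.psi (Y700.WM M) x} = Ioi (M : ℝ) := by
    ext x
    have hx : x = M * ((x / M + 1 / 12) - 1 / 12) := by field_simp; ring
    simp only [mem_ofPred_eq, mem_Ioi]
    set t : ℝ := x / M with ht
    have hx' : x = M * t := by rw [ht]; field_simp
    have h2 : Y700.psi (Y700.WM M) x = M ^ 3 * ((t - 1) * (4 * t ^ 2 + 5 * t + 23)) := by
      rw [psi_WM M hM, hx']
      ring
    rw [h2]
    have h3 : 0 < 4 * t ^ 2 + 5 * t + 23 := by nlinarith [sq_nonneg (t + 5 / 8)]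
    have h4 : (0 : ℝ) < M ^ 3 := by positivity
    rw [mul_pos_iff_of_pos_left h4, mul_pos_iff_of_pos_right h3, sub_pos, ht, lt_div_iff₀ hM0',
      one_mul]
  have himg2 : (fun x => (M : ℝ) * (p x - 1 / 12)) '' Ioo (0 : ℝ) Op = Ioi (M : ℝ) := by
    have h2 : (fun x => (M : ℝ) * (p x - 1 / 12)) '' Ioo (0 : ℝ) Op =
        (fun v => (M : ℝ) * (v - 1 / 12)) '' (p '' Ioo (0 : ℝ) Op) := by
      rw [image_image]
    rw [h2, himg]
    ext v
    simp only [mem_image, mem_Ioi]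
    constructor
    · rintro ⟨w, hw, rfl⟩
      nlinarith
    · intro hv
      refine ⟨v / M + 1 / 12, ?_, by field_simp; ring⟩
      have : 1 < v / M := by rw [lt_div_iff₀ hM0', one_mul]; exact hv
      linarith
  have hinj2 : InjOn (fun x => (M : ℝ) * (p x - 1 / 12)) (Ioo (0 : ℝ) Op) := by
    intro x hx y hy hxy
    apply hinj hx hy
    have h2 : (M : ℝ) * (p x - 1 / 12) = M * (p y - 1 / 12) := hxy
    have := mul_left_cancel₀ hM0'.ne' h2
    linarith
  have hder : ∀ x ∈ Ioo (0 : ℝ) Op,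
      HasDerivWithinAt (fun x => (M : ℝ) * (p x - 1 / 12)) (M * q x) (Ioo (0 : ℝ) Op) x := by
    intro x hx
    exact (((hd x hx).sub_const _).const_mul _).hasDerivWithinAt
  rw [Y700.Omega, hset, ← himg2,
    integral_image_eq_integral_abs_deriv_smul measurableSet_Ioo hder hinj2]
  have hconst : ∀ x ∈ Ioo (0 : ℝ) Op,
      |(M : ℝ) * q x| • (2 / Real.sqrt (Y700.psi (Y700.WM M) (M * (p x - 1 / 12)))) =
        2 / Real.sqrt M := by
    intro x hx
    have hqx := hq x hx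
    have h2 : Y700.psi (Y700.WM M) (M * (p x - 1 / 12)) = M * (M * (-q x)) ^ 2 := by
      rw [hpsi, ← hode x hx]
      ring
    have h3 : 0 < (M : ℝ) * (-q x) := mul_pos hM0' (by linarith)
    rw [h2, Real.sqrt_mul hM0'.le, Real.sqrt_sq h3.le, smul_eq_mul]
    have h4 : |(M : ℝ) * q x| = M * (-q x) := by
      rw [← abs_neg, abs_of_pos]
      · ring
      · linarith
    rw [h4]
    have h5 : 0 < Real.sqrt M := Real.sqrt_pos.2 hM0'
    have h6 : -q x ≠ 0 := by linarith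
    have h7 : (M : ℝ) ≠ 0 := hM0'.ne'
    rw [mul_div_assoc', div_eq_div_iff (mul_ne_zero h5.ne' h3.ne') h5.ne']
    ring
  rw [setIntegral_congr_fun measurableSet_Ioo hconst]
  simp only [integral_const, MeasurableSet.univ, measureReal_restrict_apply, univ_inter,
    smul_eq_mul, Real.volume_real_Ioo]
  rw [sub_zero, max_eq_left hOp.le]
  ring

end Pool.Agent.Y248.BSD14
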